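import Pool.Agent.Helper710.FrechetModules

set_option autoImplicit false

namespace Pool.Agent.Results.MP_5446c4_an.NoInjectives

open Pool.Agent.Helper710.FrechetModules

universe v

/-- There is a Fréchet algebra `A` such that every injective Fréchet `A`-module is zero. -/
theorem result : ∃ (A : Type) (_ : NonUnitalRing A) (_ : Module ℂ A) (_ : UniformSpace A),
    IsFrechetAlgebra A ∧ ∀ X : FrechetModule.{0, v} A, X.IsInjective → Subsingleton X.carrier :=
  ⟨RadSeries, inferInstance, inferInstance, inferInstance, inferInstance,
    RadSeries.subsingleton_of_isInjective⟩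

end Pool.Agent.Results.MP_5446c4_an.NoInjectives
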