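import Pool.Agent.Helper710.FrechetUnital

set_option autoImplicit false

namespace Pool.Agent.Results.MP_5446c4_an.NoInjectivesUnital

open Pool.Agent.Helper710.FrechetModules Pool.Agent.Helper710.FrechetUnital
open scoped PowerSeries.WithPiTopology

universe v

/-- There is a commutative unital Fréchet algebra `A` (formal power series in one variable) such
that every unital Fréchet `A`-module which is injective among unital Fréchet `A`-modules is
zero. -/
theorem result : ∃ (A : Type) (_ : CommRing A) (_ : Algebra ℂ A) (_ : UniformSpace A),
    IsFrechetAlgebra A ∧
    ∀ X : UnitalFrechetModule.{0, v} A, X.IsInjective → Subsingleton X.carrier :=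
  ⟨PowerSeries ℂ, inferInstance, inferInstance, inferInstance, inferInstance,
    subsingleton_of_isInjective⟩

end Pool.Agent.Results.MP_5446c4_an.NoInjectivesUnital
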